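import Pool.Agent.MP_3792c7_nt.Harm

set_option autoImplicit false

namespace Pool.Agent.Results.MP_3792c7_nt.Exponent

open Finset Pool.Agent.MP_3792c7_nt

theorem result : ∃ C : ℝ, ∀ p : ℕ, p.Prime → 3 ≤ p → ∀ x : ℕ, 1 ≤ x →
    (((Finset.Icc 1 x).filter (fun n : ℕ => (p : ℤ) ∣ (harmonic n).num)).card : ℝ) ≤
      p * (x : ℝ) ^ (11 / 18 + C * Real.log (Real.log p) / Real.log p) := by
  classical
  have l3 : 1 < Real.log 3 := by
    rw [Real.lt_log_iff_exp_lt (by norm_num)]
    exact Real.exp_one_lt_d9.trans (by norm_num)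
  have ll3 : 0 < Real.log (Real.log 3) := Real.log_pos l3
  have hE : 0 ≤ EE := by
    unfold EE
    have n1 : 0 ≤ Real.log 2 := Real.log_nonneg (by norm_num)
    have n2 : 0 ≤ Real.log 50 := Real.log_nonneg (by norm_num)
    have n3 : 0 ≤ Real.log 16010 := Real.log_nonneg (by norm_num)
    have n4 : 0 ≤ Real.log 8 := Real.log_nonneg (by norm_num)
    linarith
  let C0 : ℝ := 2 + (EE + 2 * Real.log 3) / Real.log (Real.log 3)
  refine ⟨7 * C0, fun p hp hp3 x hx => ?_⟩
  have : Fact p.Prime := ⟨hp⟩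
  have hpR : (3 : ℝ) ≤ p := by exact_mod_cast hp3
  have hL : Real.log 3 ≤ Real.log p := Real.log_le_log (by norm_num) hpR
  have hLL : Real.log (Real.log 3) ≤ Real.log (Real.log p) := Real.log_le_log (by linarith) hL
  have hxR : (1 : ℝ) ≤ x := by exact_mod_cast hx
  set L := Real.log p with hLdef
  have hL0 : 0 < L := by linarith
  set η := C0 * Real.log L / L with hη
  have hC0 : 0 ≤ C0 := by positivity
  have hη0 : 0 ≤ η := by
    have : 0 ≤ Real.log L := by linarith
    positivity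
  have e7 : 7 * C0 * Real.log L / L = 7 * η := by rw [hη]; ring
  rw [e7]
  by_cases hc : 1 / 18 ≤ η
  · calc _ ≤ ((Icc 1 x).card : ℝ) := by exact_mod_cast card_filter_le _ _
      _ = (x : ℝ) ^ (1 : ℝ) := by simp
      _ ≤ (x : ℝ) ^ (11 / 18 + 7 * η) := Real.rpow_le_rpow_of_exponent_le hxR (by linarith)
      _ ≤ _ := le_mul_of_one_le_left (by positivity) (by linarith)
  let j := Nat.log p x + 1
  have hj1 : x < p ^ j := Nat.lt_pow_succ_log_self hp.one_lt x
  have hj2 : (j : ℝ) * L ≤ Real.log x + L := by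
    have h1 : p ^ Nat.log p x ≤ x := Nat.pow_log_le_self p (by omega)
    have h2 := log_le_of_nat (pow_pos hp.pos _) h1
    rw [Nat.cast_pow, Real.log_pow] at h2
    simp only [j]
    push_cast
    linarith
  have h1 : ((Icc 1 x).filter (fun n : ℕ => (p : ℤ) ∣ (harmonic n).num)).card ≤ cnt p j 0 := by
    unfold cnt
    apply card_le_card
    intro n hn
    simp only [mem_filter, mem_Icc, mem_range, mul_zero, zero_add] at hn ⊢
    exact ⟨by omega, inJ_of_dvd p n hn.2⟩
  have h2 := cnt_bound p j 0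
  have hA : ((Nat.log 2 p + 1 : ℕ) : ℝ) ≤ 3 * L := by
    have h3 := log_le_of_nat (by positivity) (Nat.pow_log_le_self 2 hp.ne_zero)
    rw [Nat.cast_pow, Real.log_pow] at h3
    have h4 : (1 / 2 : ℝ) ≤ Real.log 2 := by have := Real.log_two_gt_d9; linarith
    have h5 : (0 : ℝ) ≤ Nat.log 2 p := Nat.cast_nonneg _
    push_cast at h3 ⊢
    nlinarith
  have hA2 : ((Nat.log 2 p + 1 : ℕ) : ℝ) ^ 2 ≤ Real.exp (2 * (Real.log 3 + Real.log L)) := by
    rw [← Real.log_mul (by norm_num) hL0.ne', show (2 : ℝ) = ((2 : ℕ) : ℝ) by norm_num,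
      Real.exp_nat_mul, Real.exp_log (by positivity)]
    exact pow_le_pow_left₀ (by positivity) hA 2
  have hstep : EE + 2 * (Real.log 3 + Real.log L) ≤ η * L := by
    have h3 : η * L = C0 * Real.log L := by rw [hη]; field_simp
    have h4 : (EE + 2 * Real.log 3) / Real.log (Real.log 3) * Real.log (Real.log 3) ≤
        (EE + 2 * Real.log 3) / Real.log (Real.log 3) * Real.log L :=
      mul_le_mul_of_nonneg_left hLL (by positivity)
    rw [div_mul_cancel₀ _ ll3.ne'] at h4
    rw [h3]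
    simp only [C0]
    linarith
  have hlx : 0 ≤ Real.log x := Real.log_nonneg hxR
  calc _ ≤ (cnt p j 0 : ℝ) := by exact_mod_cast h1
    _ ≤ Real.exp (2 * (Real.log 3 + Real.log L)) ^ j *
        Real.exp (j * (11 / 18 * L + EE) + L / 3) :=
      h2.trans (mul_le_mul_of_nonneg_right (pow_le_pow_left₀ (by positivity) hA2 j)
        (by positivity))
    _ ≤ Real.exp (L + Real.log x * (11 / 18 + 7 * η)) := by
      rw [← Real.exp_nat_mul, ← Real.exp_add]
      apply Real.exp_le_exp.mpr
      have h3 : (j : ℝ) * (EE + 2 * (Real.log 3 + Real.log L)) ≤ j * (η * L) :=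
        mul_le_mul_of_nonneg_left hstep (Nat.cast_nonneg _)
      have h4 : (11 / 18 + η) * (j * L) ≤ (11 / 18 + η) * (Real.log x + L) :=
        mul_le_mul_of_nonneg_left hj2 (by linarith)
      have h5 : η * L ≤ 1 / 18 * L := mul_le_mul_of_nonneg_right (by linarith) hL0.le
      have h6 : 0 ≤ Real.log x * η := mul_nonneg hlx hη0
      nlinarith
    _ = _ := by
      rw [Real.exp_add, hLdef, Real.exp_log (by linarith), Real.rpow_def_of_pos (by linarith)]

end Pool.Agent.Results.MP_3792c7_nt.Exponent
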