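import Mathlib
import Pool.Agent.MP_3792c7_nt.Null3

namespace Pool.Agent.Results.MP_3792c7_nt.NullSet

open MeasureTheory

/-- For an odd prime p, the Haar measure of the set of p-adic integers c such that some
n ≥ p ^ j has H_n - c / p ^ (log_p n) of p-adic norm less than 1 is at most 32 log p / log j. -/
theorem result (p : ℕ) [Fact p.Prime] (hp : p ≠ 2) [MeasurableSpace ℤ_[p]] [BorelSpace ℤ_[p]]
    (μ : Measure ℤ_[p]) [IsProbabilityMeasure μ] [μ.IsAddLeftInvariant] (j : ℕ) (hj : 2 ≤ j) :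
    μ {c : ℤ_[p] | ∃ n : ℕ, p ^ j ≤ n ∧
        ‖((harmonic n : ℚ) : ℚ_[p]) - (c : ℚ_[p]) / (p : ℚ_[p]) ^ (Nat.log p n)‖ < 1}
      ≤ ENNReal.ofReal (32 * Real.log p / Real.log j) := by
  have h2 : 2 ≤ p := (Fact.out : p.Prime).two_le
  exact Pool.Agent.MP_3792c7_nt.Null.main (by omega) μ j hj

end Pool.Agent.Results.MP_3792c7_nt.NullSet
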