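import Mathlib
import Pool.Agent.MP_3792c7_nt.SubMain

namespace Pool.Agent.Results.MP_3792c7_nt.Subpoly

/-- For every prime p and every positive ε, the number of n in [1, x] with p dividing the
numerator of the n-th harmonic number is at most a constant times x ^ ε. -/
theorem result (p : ℕ) (hp : p.Prime) (ε : ℝ) (hε : 0 < ε) : ∃ C : ℝ, ∀ x : ℕ, 1 ≤ x →
    (((Finset.Icc 1 x).filter (fun n : ℕ => (p : ℤ) ∣ (harmonic n).num)).card : ℝ)
      ≤ C * (x : ℝ) ^ ε := by
  have : Fact p.Prime := ⟨hp⟩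
  exact Pool.Agent.MP_3792c7_nt.Sub.main hε

end Pool.Agent.Results.MP_3792c7_nt.Subpoly
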