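import Pool.Agent.Mg.F3792c7p.G7f9426

namespace Pool.Agent.Results.MP_3792c7_nt.Universal

open Filter Polynomial

/-- For an integer polynomial f other than 0, X - 1, X ^ 2 - X, X ^ 2 - 1, a positive proportion
of the primes p divide no numerator of a harmonic number H_n with n / p ^ j = f(p). -/
theorem result (f : Polynomial ℤ) (h₀ : f ≠ 0) (h₁ : f ≠ X - 1) (h₂ : f ≠ X ^ 2 - X)
    (h₃ : f ≠ X ^ 2 - 1) : ∀ᶠ x : ℕ in atTop, (x : ℝ) / (62 * Real.log x) ≤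
      ({p : ℕ | p ≤ x ∧ p.Prime ∧ ¬ ∃ n j : ℕ, ((n / p ^ j : ℕ) : ℤ) = f.eval (p : ℤ) ∧
        (p : ℤ) ∣ (harmonic n).num}.ncard : ℝ) :=
  Pool.Agent.MP_3792c7_nt.Uni.dens f fun h => h.elim h₀ fun h => h.elim h₁ fun h => h.elim h₂ h₃

end Pool.Agent.Results.MP_3792c7_nt.Universal
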